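import Pool.Agent.Q194.WienerPoly
import Mathlib.Analysis.Complex.TaylorSeries
import Mathlib.Analysis.Complex.LocallyUniformLimit
import Mathlib.Analysis.Analytic.Uniqueness
import Mathlib.RingTheory.PowerSeries.Basic
import Mathlib.Analysis.Normed.Ring.InfiniteSum

/-!
# Uniform bounds for inverses in the Wiener algebra of the disc

The supremum `C δ` of the Wiener norms of `1 / f` over all power series `f` of Wiener norm one with
`|f| ≥ δ` on the disc is `1 / (2 δ - 1)` for `1 / 2 < δ ≤ 1` and infinite for `0 < δ ≤ 1 / 2`.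
-/

set_option autoImplicit false

namespace Pool.Agent.Results.MP_de3d06_an.WienerDisc

open Filter Topology
open scoped ENNReal

/-- The function `f (z) = ∑ aₙ zⁿ`. -/
noncomputable def sumOf (a : ℕ → ℂ) (z : ℂ) : ℂ := ∑' n, a n * z ^ n

/-- The set `ℱ_δ`, each `f` being given by its coefficients. -/
def Family (δ : ℝ) : Set (ℕ → ℂ) :=
  {a | HasSum (fun n => ‖a n‖) 1 ∧ ∀ z : ℂ, ‖z‖ < 1 → δ ≤ ‖sumOf a z‖}

/-- The Taylor coefficients at `0` of `1 / f`. -/
noncomputable def recipCoeff (a : ℕ → ℂ) (n : ℕ) : ℂ :=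
  iteratedDeriv n (fun z => (sumOf a z)⁻¹) 0 / (n.factorial : ℂ)

/-- `M f`, the sum of the absolute values of the Taylor coefficients of `1 / f`. -/
noncomputable def M (a : ℕ → ℂ) : ℝ≥0∞ := ∑' n, ‖recipCoeff a n‖ₑ

/-- `C δ`, the supremum of `M f` over `f ∈ ℱ_δ`. -/
noncomputable def C (δ : ℝ) : ℝ≥0∞ := ⨆ a ∈ Family δ, M a

/-- `δ₀`. -/
noncomputable def delta0 : ℝ := sInf {δ : ℝ | 0 < δ ∧ δ ≤ 1 ∧ C δ < ∞}

/-! ### Analytic preliminaries -/

theorem norm_term_le {a : ℕ → ℂ} {z : ℂ} (hz : ‖z‖ ≤ 1) (n : ℕ) : ‖a n * z ^ n‖ ≤ ‖a n‖ := by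
  rw [norm_mul, norm_pow]
  exact mul_le_of_le_one_right (norm_nonneg _) (pow_le_one₀ (norm_nonneg _) hz)

theorem differentiableOn_sumOf {a : ℕ → ℂ} (ha : Summable fun n => ‖a n‖) :
    DifferentiableOn ℂ (sumOf a) (Metric.ball 0 1) := by
  refine Complex.differentiableOn_tsum_of_summable_norm ha ?_ Metric.isOpen_ball ?_
  · intro n
    fun_prop
  · intro n w hw
    refine norm_term_le ?_ n
    rw [Metric.mem_ball, dist_zero_right] at hw
    exact hw.le

theorem hasSum_recip {δ : ℝ} (hδ : 0 < δ) {a : ℕ → ℂ} (ha : a ∈ Family δ) {z : ℂ}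
    (hz : ‖z‖ < 1) : HasSum (fun n => recipCoeff a n * z ^ n) (sumOf a z)⁻¹ := by
  have hd : DifferentiableOn ℂ (fun z => (sumOf a z)⁻¹) (Metric.ball 0 1) := by
    refine (differentiableOn_sumOf ha.1.summable).inv ?_
    intro w hw h0
    rw [Metric.mem_ball, dist_zero_right] at hw
    have := ha.2 w hw
    rw [h0, norm_zero] at this
    linarith
  have h := Complex.hasSum_taylorSeries_on_ball hd (z := z) (by simpa using hz)
  have e : (fun n => recipCoeff a n * z ^ n) = fun n : ℕ => ((n.factorial : ℂ))⁻¹ •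
      (z - 0) ^ n • iteratedDeriv n (fun z => (sumOf a z)⁻¹) 0 := by
    funext n
    rw [recipCoeff, sub_zero, smul_eq_mul, smul_eq_mul]
    ring
  rw [e]
  exact h

/-- Uniqueness of the coefficients of the constant function `1`. -/
theorem coeff_unique {c : ℕ → ℂ} (h : ∀ z : ℂ, ‖z‖ < 1 → HasSum (fun n => c n * z ^ n) 1) (n : ℕ) :
    c n = if n = 0 then 1 else 0 := by
  let p : FormalMultilinearSeries ℂ ℂ ℂ := fun n =>
    ContinuousMultilinearMap.mkPiRing ℂ (Fin n) (c n)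
  have hp : ∀ n, p.coeff n = c n := by
    intro n
    simp [p, FormalMultilinearSeries.coeff]
  have h1 : HasFPowerSeriesAt (fun _ : ℂ => (1 : ℂ)) p 0 := by
    rw [hasFPowerSeriesAt_iff]
    filter_upwards [Metric.ball_mem_nhds (0 : ℂ) one_pos] with z hz
    rw [Metric.mem_ball, dist_zero_right] at hz
    have e : (fun n => z ^ n • p.coeff n) = fun n => c n * z ^ n := by
      funext n
      rw [hp, smul_eq_mul, mul_comm]
    rw [e]
    exact h z hz
  have h2 : HasFPowerSeriesAt (fun _ : ℂ => (1 : ℂ)) (constFormalMultilinearSeries ℂ ℂ (1 : ℂ)) 0 :=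
    hasFPowerSeriesAt_const
  have h3 := h1.eq_formalMultilinearSeries h2
  rw [← hp, h3]
  rcases n with _ | n
  · simp [FormalMultilinearSeries.coeff, constFormalMultilinearSeries]
  · simp [FormalMultilinearSeries.coeff, constFormalMultilinearSeries]

theorem conv {δ : ℝ} (hδ : 0 < δ) {a : ℕ → ℂ} (ha : a ∈ Family δ) (n : ℕ) :
    ∑ k ∈ Finset.range (n + 1), a k * recipCoeff a (n - k) = if n = 0 then 1 else 0 := by
  refine coeff_unique (c := fun n => ∑ k ∈ Finset.range (n + 1), a k * recipCoeff a (n - k)) ?_ n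
  intro z hz
  have h1 : Summable fun n => ‖a n * z ^ n‖ :=
    Summable.of_nonneg_of_le (fun n => norm_nonneg _) (norm_term_le hz.le) ha.1.summable
  have h2 := hasSum_recip hδ ha hz
  have h3 : Summable fun n => ‖recipCoeff a n * z ^ n‖ := summable_norm_iff.2 h2.summable
  have h4 := hasSum_sum_range_mul_of_summable_norm h1 h3
  have h5 : sumOf a z ≠ 0 := by
    intro h0
    have := ha.2 z hz
    rw [h0, norm_zero] at this
    linarith
  rw [h2.tsum_eq] at h4
  have h6 : (∑' n, a n * z ^ n) * (sumOf a z)⁻¹ = 1 := mul_inv_cancel₀ h5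
  rw [h6] at h4
  have e : (fun n => (∑ k ∈ Finset.range (n + 1), a k * recipCoeff a (n - k)) * z ^ n) =
      fun n => ∑ k ∈ Finset.range (n + 1), a k * z ^ k * (recipCoeff a (n - k) * z ^ (n - k)) := by
    funext n
    rw [Finset.sum_mul]
    refine Finset.sum_congr rfl fun k hk => ?_
    have hkn : k ≤ n := Nat.lt_succ_iff.1 (Finset.mem_range.1 hk)
    have : z ^ n = z ^ k * z ^ (n - k) := by rw [← pow_add, Nat.add_sub_cancel' hkn]
    rw [this]
    ring
  rw [e]
  exact h4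

/-! ### The upper bound -/

theorem norm_a_zero {δ : ℝ} {a : ℕ → ℂ} (ha : a ∈ Family δ) : δ ≤ ‖a 0‖ := by
  have h := ha.2 0 (by simp)
  have e : sumOf a 0 = a 0 := by
    unfold sumOf
    rw [tsum_eq_single 0]
    · simp
    · intro n hn
      simp [hn]
  rwa [e] at h

theorem partial_sum_le {δ : ℝ} (hδ : 0 < δ) {a : ℕ → ℂ} (ha : a ∈ Family δ) (N : ℕ) :
    (2 * ‖a 0‖ - 1) * ∑ n ∈ Finset.range N, ‖recipCoeff a n‖ ≤ 1 := by
  set b := recipCoeff a with hb
  -- bound for each coefficient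
  have h1 : ∀ n, 2 * (‖a 0‖ * ‖b n‖) ≤
      (∑ k ∈ Finset.range (n + 1), ‖a k‖ * ‖b (n - k)‖) + (if n = 0 then 1 else 0) := by
    intro n
    have h := conv hδ ha n
    rw [Finset.sum_range_succ', Nat.sub_zero] at h
    rw [Finset.sum_range_succ', Nat.sub_zero]
    have h2 : ‖a 0‖ * ‖b n‖ ≤ (if n = 0 then 1 else 0) +
        ∑ k ∈ Finset.range n, ‖a (k + 1)‖ * ‖b (n - (k + 1))‖ := by
      have e : a 0 * b n = (if n = 0 then (1 : ℂ) else 0) -
          ∑ k ∈ Finset.range n, a (k + 1) * b (n - (k + 1)) := by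
        rw [← h]
        ring
      rw [← norm_mul, e]
      refine (norm_sub_le _ _).trans (add_le_add ?_ ?_)
      · split_ifs <;> simp
      · refine (norm_sum_le _ _).trans (le_of_eq ?_)
        exact Finset.sum_congr rfl fun k _ => norm_mul _ _
    linarith
  have h2 : ∑ n ∈ Finset.range N, ∑ k ∈ Finset.range (n + 1), ‖a k‖ * ‖b (n - k)‖ ≤
      ∑ n ∈ Finset.range N, ‖b n‖ := by
    rw [Finset.sum_range_diag_flip N (fun m k => ‖a m‖ * ‖b k‖)]
    calc ∑ m ∈ Finset.range N, ∑ k ∈ Finset.range (N - m), ‖a m‖ * ‖b k‖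
        ≤ ∑ m ∈ Finset.range N, ‖a m‖ * ∑ k ∈ Finset.range N, ‖b k‖ := by
          refine Finset.sum_le_sum fun m _ => ?_
          rw [← Finset.mul_sum]
          refine mul_le_mul_of_nonneg_left ?_ (norm_nonneg _)
          exact Finset.sum_le_sum_of_subset_of_nonneg
            (Finset.range_subset_range.2 (Nat.sub_le _ _)) fun _ _ _ => norm_nonneg _
      _ = (∑ m ∈ Finset.range N, ‖a m‖) * ∑ k ∈ Finset.range N, ‖b k‖ := by
          rw [Finset.sum_mul]
      _ ≤ 1 * ∑ k ∈ Finset.range N, ‖b k‖ := by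
          refine mul_le_mul_of_nonneg_right ?_ (Finset.sum_nonneg fun _ _ => norm_nonneg _)
          exact sum_le_hasSum _ (fun _ _ => norm_nonneg _) ha.1
      _ = _ := one_mul _
  have h3 : ∑ n ∈ Finset.range N, (if n = 0 then (1 : ℝ) else 0) ≤ 1 := by
    rw [Finset.sum_ite_eq' (Finset.range N) 0 (fun _ => (1 : ℝ))]
    split_ifs <;> norm_num
  have h4 := Finset.sum_le_sum (s := Finset.range N) fun n _ => h1 n
  rw [Finset.sum_add_distrib, ← Finset.mul_sum, ← Finset.mul_sum] at h4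
  nlinarith

theorem M_le {δ : ℝ} (hδ : 1 / 2 < δ) {a : ℕ → ℂ} (ha : a ∈ Family δ) :
    M a ≤ ENNReal.ofReal (1 / (2 * δ - 1)) := by
  unfold M
  rw [ENNReal.tsum_eq_iSup_nat]
  refine iSup_le fun N => ?_
  have h0 : ∀ n, ‖recipCoeff a n‖ₑ = ENNReal.ofReal ‖recipCoeff a n‖ := fun n =>
    (ofReal_norm _).symm
  simp_rw [h0]
  rw [← ENNReal.ofReal_sum_of_nonneg fun _ _ => norm_nonneg _]
  refine ENNReal.ofReal_le_ofReal ?_
  have h1 := partial_sum_le (by linarith) ha N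
  have h2 := norm_a_zero ha
  have h3 : 0 ≤ ∑ n ∈ Finset.range N, ‖recipCoeff a n‖ :=
    Finset.sum_nonneg fun _ _ => norm_nonneg _
  rw [le_div_iff₀ (by linarith)]
  nlinarith

/-! ### The lower bound -/

open Pool.Agent.Q194.WienerPoly Polynomial

theorem hasSum_coeff (F : ℂ[X]) : HasSum (fun n => ‖F.coeff n‖) (W F) := by
  refine hasSum_sum_of_ne_finset_zero fun n hn => ?_
  rw [notMem_support_iff.1 hn, norm_zero]

theorem sumOf_coeff (F : ℂ[X]) (z : ℂ) : sumOf F.coeff z = F.eval z := by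
  unfold sumOf
  rw [eval_eq_sum, Polynomial.sum]
  refine tsum_eq_sum fun n hn => ?_
  rw [notMem_support_iff.1 hn, zero_mul]

theorem lower_aux {δ α η : ℝ} (hδ : 0 < δ) (hα : δ < α) (hα1 : α < 1) (hη : 0 < η) (N : ℕ) :
    ENNReal.ofReal ((1 - η) * (α⁻¹ * ∑ n ∈ Finset.range (N + 1), ((1 - α) / α) ^ n)) ≤ C δ := by
  have hα0 : 0 < α := hδ.trans hα
  obtain ⟨g, hg1, hg2, hg3⟩ := exists_flat_powers N (show 0 < α - δ by linarith) hη
  set K : ℕ := N * g.natDegree + 1 with hK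
  set F : ℂ[X] := Polynomial.C (α : ℂ) + X ^ K * (Polynomial.C ((1 - α : ℝ) : ℂ) * g) with hF
  have hWF : W F = 1 := by
    rw [hF, W_add_X_pow_mul (by simp; omega), W_smul, W_C, hg1, Complex.norm_real,
      Complex.norm_real, Real.norm_of_nonneg hα0.le, Real.norm_of_nonneg (by linarith)]
    ring
  have hmem : F.coeff ∈ Family δ := by
    refine ⟨by rw [← hWF]; exact hasSum_coeff F, fun z hz => ?_⟩
    rw [sumOf_coeff, hF, eval_add, eval_mul, eval_mul, eval_C, eval_C, eval_pow, eval_X]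
    have h1 : ‖z ^ K * ((((1 - α : ℝ) : ℂ)) * g.eval z)‖ ≤ α - δ := by
      rw [norm_mul, norm_mul, norm_pow, Complex.norm_real, Real.norm_of_nonneg (by linarith)]
      calc ‖z‖ ^ K * ((1 - α) * ‖g.eval z‖) ≤ 1 * (1 * (α - δ)) := by
            refine mul_le_mul (pow_le_one₀ (norm_nonneg _) hz.le) ?_ ?_ zero_le_one
            · exact mul_le_mul (by linarith) (hg3 z hz.le) (norm_nonneg _) zero_le_one
            · exact mul_nonneg (by linarith) (norm_nonneg _)
        _ = _ := by ring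
    have h2 : ‖(α : ℂ)‖ = α := by rw [Complex.norm_real, Real.norm_of_nonneg hα0.le]
    have h3 := norm_sub_le_norm_add (α : ℂ) (z ^ K * ((((1 - α : ℝ) : ℂ)) * g.eval z))
    rw [h2] at h3
    linarith
  -- the power series identity
  set b := recipCoeff F.coeff with hb
  set B : PowerSeries ℂ := PowerSeries.mk b with hB
  have hFB : (F : PowerSeries ℂ) * B = 1 := by
    ext n
    rw [PowerSeries.coeff_mul, Finset.Nat.sum_antidiagonal_eq_sum_range_succ_mk,
      PowerSeries.coeff_one, ← conv hδ hmem n]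
    refine Finset.sum_congr rfl fun k _ => ?_
    rw [Polynomial.coeff_coe, hB, PowerSeries.coeff_mk]
  set c : ℕ → ℂ := fun n => (α : ℂ)⁻¹ * (-(((1 - α) / α : ℝ) : ℂ)) ^ n with hc
  set A : ℂ[X] := ∑ n ∈ Finset.range (N + 1), Polynomial.C (c n) * (X ^ K * g) ^ n with hA
  obtain ⟨hA1, hA2⟩ := W_lacunary g c N K (by omega)
  rw [← hA] at hA1 hA2
  set u : ℂ[X] := Polynomial.C (-(((1 - α) / α : ℝ) : ℂ)) * (X ^ K * g) with hu
  have hαC : (α : ℂ) ≠ 0 := by exact_mod_cast hα0.ne'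
  have hFu : F = Polynomial.C (α : ℂ) * (1 - u) := by
    have h1 : (α : ℂ) * -(((1 - α) / α : ℝ) : ℂ) = -((1 - α : ℝ) : ℂ) := by
      push_cast
      field_simp
    have h2 : Polynomial.C (α : ℂ) * u = -(X ^ K * (Polynomial.C ((1 - α : ℝ) : ℂ) * g)) := by
      rw [hu, ← mul_assoc, ← Polynomial.C_mul, h1, Polynomial.C_neg]
      ring
    rw [hF, mul_sub, mul_one, h2]
    ring
  have hAu : A * (1 - u) = Polynomial.C ((α : ℂ)⁻¹) * (1 - u ^ (N + 1)) := by
    have h1 : A = Polynomial.C ((α : ℂ)⁻¹) * ∑ n ∈ Finset.range (N + 1), u ^ n := by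
      rw [hA, Finset.mul_sum]
      refine Finset.sum_congr rfl fun n _ => ?_
      have h2 : u ^ n = Polynomial.C ((-(((1 - α) / α : ℝ) : ℂ)) ^ n) * (X ^ K * g) ^ n := by
        rw [hu, mul_pow, ← Polynomial.C_pow]
      rw [h2, ← mul_assoc, ← Polynomial.C_mul]
    rw [h1, mul_assoc, geom_sum_mul_neg]
  have hBA : B = (A : PowerSeries ℂ) + (u ^ (N + 1) : ℂ[X]) * B := by
    have h1 : (Polynomial.C ((α : ℂ)⁻¹) * (1 - u ^ (N + 1))) * Polynomial.C (α : ℂ) =
        A * F := by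
      rw [← hAu, hFu]
      ring
    have h2 : (1 - u ^ (N + 1) : ℂ[X]) = A * F := by
      rw [← h1]
      have : Polynomial.C ((α : ℂ)⁻¹) * Polynomial.C (α : ℂ) = 1 := by
        rw [← Polynomial.C_mul, inv_mul_cancel₀ hαC, Polynomial.C_1]
      calc (1 - u ^ (N + 1) : ℂ[X]) = (Polynomial.C ((α : ℂ)⁻¹) * Polynomial.C (α : ℂ)) *
            (1 - u ^ (N + 1)) := by rw [this, one_mul]
        _ = _ := by ring
    have h3 : ((1 - u ^ (N + 1) : ℂ[X]) : PowerSeries ℂ) * B = (A : PowerSeries ℂ) := by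
      rw [h2, Polynomial.coe_mul, mul_assoc, hFB, mul_one]
    rw [← h3]
    push_cast
    ring
  have hcoef : ∀ m < K * (N + 1), b m = A.coeff m := by
    intro m hm
    have h1 : PowerSeries.coeff m B = b m := by rw [hB, PowerSeries.coeff_mk]
    rw [← h1, hBA, map_add, Polynomial.coeff_coe]
    have hdvd : (PowerSeries.X : PowerSeries ℂ) ^ (K * (N + 1)) ∣
        ((u ^ (N + 1) : ℂ[X]) : PowerSeries ℂ) * B := by
      refine Dvd.dvd.mul_right ?_ _
      have h2 : (X : ℂ[X]) ^ (K * (N + 1)) ∣ u ^ (N + 1) := by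
        rw [pow_mul]
        refine pow_dvd_pow_of_dvd ?_ _
        rw [hu]
        exact Dvd.dvd.mul_left (Dvd.intro _ rfl) _
      obtain ⟨w, hw⟩ := h2
      refine ⟨(w : PowerSeries ℂ), ?_⟩
      rw [hw]
      push_cast
      rfl
    rw [PowerSeries.X_pow_dvd_iff.1 hdvd m hm, add_zero]
  have hM : ENNReal.ofReal (W A) ≤ M F.coeff := by
    rw [W_eq_range hA1, ENNReal.ofReal_sum_of_nonneg fun _ _ => norm_nonneg _]
    refine le_trans (le_of_eq ?_) (ENNReal.sum_le_tsum (Finset.range (K * (N + 1))))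
    refine Finset.sum_congr rfl fun m hm => ?_
    rw [← hcoef m (Finset.mem_range.1 hm), ofReal_norm]
  have hfin : (1 - η) * (α⁻¹ * ∑ n ∈ Finset.range (N + 1), ((1 - α) / α) ^ n) ≤ W A := by
    rw [hA2, ← mul_assoc, Finset.mul_sum]
    refine Finset.sum_le_sum fun n hn => ?_
    have h1 : ‖c n‖ = α⁻¹ * ((1 - α) / α) ^ n := by
      rw [hc]
      simp only [norm_mul, norm_pow, norm_neg, norm_inv, Complex.norm_real]
      rw [Real.norm_of_nonneg hα0.le, Real.norm_of_nonneg (div_nonneg (by linarith) hα0.le)]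
    rw [h1]
    have h2 : 0 ≤ α⁻¹ * ((1 - α) / α) ^ n :=
      mul_nonneg (by positivity) (pow_nonneg (div_nonneg (by linarith) hα0.le) n)
    have h3 := hg2 n (Nat.lt_succ_iff.1 (Finset.mem_range.1 hn))
    nlinarith [mul_le_mul_of_nonneg_left h3 h2]
  calc ENNReal.ofReal ((1 - η) * (α⁻¹ * ∑ n ∈ Finset.range (N + 1), ((1 - α) / α) ^ n))
      ≤ ENNReal.ofReal (W A) := ENNReal.ofReal_le_ofReal hfin
    _ ≤ M F.coeff := hM
    _ ≤ C δ := le_iSup₂ (f := fun a (_ : a ∈ Family δ) => M a) F.coeff hmem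

theorem lower {δ α : ℝ} (hδ : 0 < δ) (hα : δ < α) (hα2 : 1 / 2 < α) (hα1 : α < 1) :
    ENNReal.ofReal (1 / (2 * α - 1)) ≤ C δ := by
  have hα0 : 0 < α := hδ.trans hα
  have ht0 : 0 ≤ (1 - α) / α := div_nonneg (by linarith) hα0.le
  have ht1 : (1 - α) / α < 1 := by
    rw [div_lt_one hα0]
    linarith
  have hlim : Tendsto (fun N : ℕ => (1 - 1 / ((N : ℝ) + 1)) *
      (α⁻¹ * ∑ n ∈ Finset.range (N + 1), ((1 - α) / α) ^ n)) atTop
      (𝓝 ((1 - 0) * (α⁻¹ * (1 - (1 - α) / α)⁻¹))) := by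
    refine Tendsto.mul (tendsto_const_nhds.sub tendsto_one_div_add_atTop_nhds_zero_nat) ?_
    refine Tendsto.const_mul _ ?_
    exact (hasSum_geometric_of_lt_one ht0 ht1).tendsto_sum_nat.comp (tendsto_add_atTop_nat 1)
  have hval : (1 - 0) * (α⁻¹ * (1 - (1 - α) / α)⁻¹) = 1 / (2 * α - 1) := by
    have h1 : 1 - (1 - α) / α = (2 * α - 1) / α := by
      field_simp
      ring
    have h2 : 2 * α - 1 ≠ 0 := by linarith
    rw [h1]
    field_simp
    ring
  rw [hval] at hlim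
  refine le_of_tendsto' ((ENNReal.continuous_ofReal.tendsto _).comp hlim) fun N => ?_
  exact lower_aux hδ hα hα1 (by positivity) N

theorem C_eq_top {δ : ℝ} (hδ : 0 < δ) (hδ2 : δ ≤ 1 / 2) : C δ = ∞ := by
  refine ENNReal.eq_top_of_forall_nnreal_le fun r => ?_
  have h1 : ENNReal.ofReal (r + 2 : ℝ) ≤ C δ := by
    have hr : (0 : ℝ) < r + 2 := by positivity
    have hr2 : (2 : ℝ) ≤ r + 2 := by linarith [r.coe_nonneg]
    have h2 : (0 : ℝ) < 1 / (2 * (r + 2)) := by positivity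
    have h3 : 1 / (2 * ((r : ℝ) + 2)) ≤ 1 / (2 * 2) := by
      apply one_div_le_one_div_of_le <;> linarith
    have h := lower (α := 1 / 2 + 1 / (2 * (r + 2))) hδ (by linarith) (by linarith)
      (by norm_num at h3 ⊢; linarith)
    have e : 1 / (2 * (1 / 2 + 1 / (2 * ((r : ℝ) + 2))) - 1) = r + 2 := by
      field_simp
      ring
    rwa [e] at h
  refine le_trans ?_ h1
  rw [← ENNReal.ofReal_coe_nnreal]
  exact ENNReal.ofReal_le_ofReal (by linarith)

theorem C_eq {δ : ℝ} (hδ : 1 / 2 < δ) (hδ1 : δ ≤ 1) : C δ = ENNReal.ofReal (1 / (2 * δ - 1)) := by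
  refine le_antisymm (iSup₂_le fun a ha => M_le hδ ha) ?_
  rcases eq_or_lt_of_le hδ1 with rfl | h1
  · -- the constant function one
    have hmem : (Polynomial.C (1 : ℂ)).coeff ∈ Family 1 := by
      refine ⟨?_, fun z _ => ?_⟩
      · have := hasSum_coeff (Polynomial.C (1 : ℂ))
        rwa [W_C, norm_one] at this
      · rw [sumOf_coeff, eval_C, norm_one]
    have h0 := conv one_pos hmem 0
    simp only [zero_add, Finset.sum_range_one, coeff_C_zero, one_mul, Nat.sub_zero, if_true] at h0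
    have h2 : M (Polynomial.C (1 : ℂ)).coeff ≤ C 1 :=
      le_iSup₂ (f := fun a (_ : a ∈ Family 1) => M a) _ hmem
    refine le_trans ?_ h2
    unfold M
    refine le_trans ?_ (ENNReal.le_tsum 0)
    rw [h0]
    norm_num
  · have hlim : Tendsto (fun α : ℝ => ENNReal.ofReal (1 / (2 * α - 1))) (𝓝[>] δ)
        (𝓝 (ENNReal.ofReal (1 / (2 * δ - 1)))) := by
      refine (ENNReal.continuous_ofReal.tendsto _).comp ?_
      refine Tendsto.mono_left ?_ nhdsWithin_le_nhds
      have : ContinuousAt (fun α : ℝ => 1 / (2 * α - 1)) δ := by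
        refine ContinuousAt.div continuousAt_const (by fun_prop) ?_
        linarith
      exact this
    refine le_of_tendsto hlim ?_
    filter_upwards [self_mem_nhdsWithin, mem_nhdsWithin_of_mem_nhds (Iio_mem_nhds h1)] with α h2 h3
    exact lower (by linarith) h2 (hδ.trans h2) h3

/-- The exact value of `C δ` for all `δ`, and `δ₀ = 1 / 2`. -/
theorem result :
    (∀ δ : ℝ, 0 < δ → δ ≤ 1 / 2 → C δ = ∞) ∧
    (∀ δ : ℝ, 1 / 2 < δ → δ ≤ 1 → C δ = ENNReal.ofReal (1 / (2 * δ - 1))) ∧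
    delta0 = 1 / 2 := by
  refine ⟨fun δ h1 h2 => C_eq_top h1 h2, fun δ h1 h2 => C_eq h1 h2, ?_⟩
  have hset : {δ : ℝ | 0 < δ ∧ δ ≤ 1 ∧ C δ < ∞} = Set.Ioc (1 / 2) 1 := by
    ext δ
    constructor
    · rintro ⟨h1, h2, h3⟩
      refine ⟨?_, h2⟩
      by_contra h
      rw [C_eq_top h1 (not_lt.1 h)] at h3
      exact lt_irrefl _ h3
    · rintro ⟨h1, h2⟩
      refine ⟨by linarith, h2, ?_⟩
      rw [C_eq h1 h2]
      exact ENNReal.ofReal_lt_top
  rw [delta0, hset]
  exact csInf_Ioc (by norm_num)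

end Pool.Agent.Results.MP_de3d06_an.WienerDisc
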